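import Pool.Agent.W851.BE.Stm

/-!
Project BE (helper851), problem MP_160e9b_an: part BE-EQM (helper654).
-/

set_option autoImplicit false

open Polynomial Topology Filter MeasureTheory
open Pool.Agent.W95.BK Pool.Agent.W851.BE

namespace Pool.Agent.W654.BE

universe u

section
variable {K : Type u} [NontriviallyNormedField K] [IsUltrametricDist K] [IsAlgClosed K]

/-- preimages of points of the hyperbolic part are in the hyperbolic part -/
theorem pre_HK (hACT : S_ACT.{u}) (f : RMap K) (z : P1B K) (x : BA K) (hx : HK x)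
    (h : f.act z = (x : P1B K)) : ∃ ζ : BA K, HK ζ ∧ z = (ζ : P1B K) := by
  classical
  obtain ⟨_, h2, h3, _, _⟩ := hACT K f
  induction z using OnePoint.rec with
  | infty =>
    exfalso
    have e : f.act OnePoint.infty = if f.Q.coeff f.d = 0 then (OnePoint.infty : P1B K)
      else ((cl (f.P.coeff f.d / f.Q.coeff f.d) : BA K) : P1B K) := rfl
    rw [e] at h
    split_ifs at h with h0
    · exact absurd h.symm (OnePoint.coe_ne_infty x)
    · exact hx _ (OnePoint.coe_eq_coe.1 h).symm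
  | coe ζ =>
    refine ⟨ζ, ?_, rfl⟩
    rintro w rfl
    by_cases h0 : f.Q.eval w = 0
    · rw [h3 w h0] at h
      exact absurd h.symm (OnePoint.coe_ne_infty x)
    · rw [h2 w h0] at h
      exact hx _ (OnePoint.coe_eq_coe.1 h).symm

theorem push_eq (hACT : S_ACT.{u}) (hFUNC : S_FUNC.{u}) (hCHAIN : S_CHAIN.{u})
    (hCONJ : S_CONJ.{u}) (hDEG1 : S_DEG1.{u}) (R : RMap K) (c : K) (n : ℕ) (φ : P1B K → ℝ)
    (x x' : BA K) (hx : HK x) (hx' : HK x')
    (h1 : (mobi c).act (x : P1B K) = (x' : P1B K)) :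
    pushFun (R.iter n) (fun z => φ ((mob c).act z)) (x' : P1B K) =
      pushFun ((conjM R c).iter n) φ (x : P1B K) := by
  obtain ⟨c1, c2, _, c4, _⟩ := hCONJ K R c
  obtain ⟨hcomp, hid⟩ := hFUNC K
  have e1 : ∀ y : P1B K, (mob c).act ((mobi c).act y) = y := by
    intro y; rw [← hcomp, c1, hid]
  have e2 : ∀ y : P1B K, (mobi c).act ((mob c).act y) = y := by
    intro y; rw [← hcomp, c2, hid]
  have e3 : ∀ y : P1B K, ((conjM R c).iter n).act y =
      (mob c).act ((R.iter n).act ((mobi c).act y)) := by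
    intro y; rw [c4 n, hcomp, hcomp]
  unfold Pool.Agent.W95.BK.pushFun
  refine finsum_mem_eq_of_bijOn (mob c).act ⟨?_, ?_, ?_⟩ ?_
  · intro z hz
    have hz' : (R.iter n).act z = (x' : P1B K) := hz
    show ((conjM R c).iter n).act ((mob c).act z) = (x : P1B K)
    rw [e3, e2, hz', ← h1, e1]
  · intro y _ z _ h
    have := congrArg (mobi c).act h
    rwa [e2, e2] at this
  · intro y hy
    have hy' : ((conjM R c).iter n).act y = (x : P1B K) := hy
    refine ⟨(mobi c).act y, ?_, e1 y⟩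
    show (R.iter n).act ((mobi c).act y) = (x' : P1B K)
    rw [e3] at hy'
    have := congrArg (mobi c).act hy'
    rwa [e2, h1] at this
  · intro z hz
    have hz' : (R.iter n).act z = (x' : P1B K) := hz
    obtain ⟨ζ, hζ, rfl⟩ := pre_HK hACT (R.iter n) z x' hx' hz'
    obtain ⟨ζ', hζ', hm, _, _⟩ := (hACT K (mob c)).1 ζ hζ
    have hdeg : localDeg ((conjM R c).iter n) ((mob c).act (ζ : P1B K)) =
        localDeg (R.iter n) (ζ : P1B K) := by
      have hback : (mobi c).act (ζ' : P1B K) = (ζ : P1B K) := by rw [← hm, e2]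
      rw [hm, c4 n, hCHAIN K _ _ ζ' hζ', hCHAIN K _ _ ζ' hζ', hcomp, hback, hz',
        (hDEG1 K (mob c) x' hx').2 rfl, (hDEG1 K (mobi c) ζ' hζ').2 rfl, one_mul, mul_one]
    show (localDeg (R.iter n) (ζ : P1B K) : ℝ) * φ ((mob c).act (ζ : P1B K)) = _
    rw [hdeg]

end

theorem main : S_ACTC.{u} → S_ACT.{u} → S_FUNC.{u} → S_CHAIN.{u} → S_CONJ.{u} → S_DEG1.{u} →
    S_EQM.{u} := by
  intro hACTC hACT hFUNC hCHAIN hCONJ hDEG1 K _ _ _ R c ρ _ hρ hE
  have hcont : Continuous (mob c).act := hACTC K (mob c)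
  have hmeas : Measurable (mob c).act := hcont.measurable
  refine ⟨Measure.isProbabilityMeasure_map hmeas.aemeasurable, ?_⟩
  intro x hx φ
  obtain ⟨x', hx', h1, _, _⟩ := (hACT K (mobi c)).1 x hx
  have h2 := hE x' hx' ⟨fun z => φ ((mob c).act z), φ.continuous.comp hcont⟩
  have h3 : ∫ z, φ z ∂(ρ.map (mob c).act) = ∫ z, φ ((mob c).act z) ∂ρ :=
    integral_map hmeas.aemeasurable φ.continuous.aestronglyMeasurable
  rw [h3, (hCONJ K R c).2.2.1]
  have h4 : ∀ n : ℕ, pushFun ((conjM R c).iter n) φ (x : P1B K) =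
      pushFun (R.iter n) (fun z => φ ((mob c).act z)) (x' : P1B K) := fun n =>
    (push_eq hACT hFUNC hCHAIN hCONJ hDEG1 R c n φ x x' hx hx' h1).symm
  simp only [h4]
  exact h2

end Pool.Agent.W654.BE
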